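import Pool.Agent.Q24.CappittDefs
import Pool.Agent.Q24.Cappitt

/-!
# Non-abelian pro-`p` Cappitt groups are periodic
-/

set_option autoImplicit false

namespace Pool.Agent.Results.MP_b1a016_al.Periodic

open Q24.Cappitt

universe u

/-- **Every non-abelian pro-`p` Cappitt group is periodic.** -/
theorem result (p : ℕ) [Fact p.Prime] (G : Type u) [Group G] [TopologicalSpace G]
    [IsTopologicalGroup G] [CompactSpace G] [T2Space G] [TotallyDisconnectedSpace G]
    (hp : IsProP p G) (hS : STilde G ≠ ⊤) (hna : ∃ a b : G, a * b ≠ b * a) :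
    ∀ g : G, IsOfFinOrder g :=
  periodic hp hS hna

end Pool.Agent.Results.MP_b1a016_al.Periodic
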